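import Pool.Agent.Helper5.FV.Stmts

set_option autoImplicit false

open Finset Pool.Agent.Helper8.UN

namespace Pool.Agent.Helper5.FV

theorem cls_mem {n : ℕ} {W0 : Finset (Fin n)} {f : Fin n → ℕ} {B : Finset (Fin n)} :
    B ∈ cls W0 f ↔ ∃ u ∈ W0, univ.filter (fun y => f y = f u) = B := by
  unfold cls
  rw [Finset.mem_image]

theorem cls_un {n : ℕ} (W0 : Finset (Fin n)) (f : Fin n → ℕ) :
    un (cls W0 f) = univ.filter (fun y => ∃ u ∈ W0, f y = f u) := by
  ext y
  unfold un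
  rw [Finset.mem_biUnion, Finset.mem_filter]
  constructor
  · rintro ⟨B, hB, hy⟩
    obtain ⟨u, hu, rfl⟩ := cls_mem.1 hB
    exact ⟨Finset.mem_univ _, u, hu, (Finset.mem_filter.1 hy).2⟩
  · rintro ⟨-, u, hu, hy⟩
    exact ⟨_, cls_mem.2 ⟨u, hu, rfl⟩, Finset.mem_filter.2 ⟨Finset.mem_univ _, hy⟩⟩

theorem st_CLS : ST_CLS := by
  classical
  intro n k E W0 f _ hf
  have hP : Prp E univ f := by
    unfold CC at hf
    exact (Finset.mem_filter.1 hf).2
  refine ⟨?_, ?_, cls_un W0 f⟩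
  · unfold QQ
    rw [Finset.mem_filter]
    refine ⟨Finset.mem_univ _, ?_, ?_, ?_⟩
    · intro B hB
      obtain ⟨u, hu, rfl⟩ := cls_mem.1 hB
      refine ⟨⟨u, Finset.mem_inter.2 ⟨Finset.mem_filter.2 ⟨Finset.mem_univ _, rfl⟩, hu⟩⟩, ?_⟩
      intro e he heB
      obtain ⟨v, hv, w, hw, hne⟩ := hP e he (Finset.subset_univ _)
      apply hne
      rw [(Finset.mem_filter.1 (heB hv)).2, (Finset.mem_filter.1 (heB hw)).2]
    · intro B hB B' hB' hne
      obtain ⟨u, hu, rfl⟩ := cls_mem.1 hB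
      obtain ⟨u', hu', rfl⟩ := cls_mem.1 hB'
      rw [Finset.disjoint_left]
      intro y hy hy'
      apply hne
      have h1 := (Finset.mem_filter.1 hy).2
      have h2 := (Finset.mem_filter.1 hy').2
      rw [← h1, ← h2]
    · intro u hu
      rw [cls_un]
      exact Finset.mem_filter.2 ⟨Finset.mem_univ _, u, hu, rfl⟩
  · unfold cls
    exact Finset.card_image_le

end Pool.Agent.Helper5.FV
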