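import Pool.Agent.Helper43.FV.Spec
import Pool.Agent.Helper59.RS.PLACE

/-! # Module ZER: the number of zeros of a function -/

namespace Pool.Agent.Helper43.FV

open Pool.Agent.Helper43.RS
open Pool.Agent.Helper43.RS.PLACE
open Polynomial IsDedekindDomain

namespace ZER

variable {F : Type} [Field F] [Algebra ℂ F]

/-! ## Finiteness -/

theorem isAlg_of_dep {x u : F} (hx : Transcendental ℂ x) (h : AlgDep x u) :
    IsAlgebraic (Algebra.adjoin ℂ {x}) u := by
  by_contra hu
  have hi : AlgebraicIndependent ℂ ![x] := by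
    rw [algebraicIndependent_unique_type_iff]
    exact hx
  have hr : Set.range ![x] = {x} := by
    ext z
    simp [eq_comm]
  have hu' : Transcendental (Algebra.adjoin ℂ (Set.range ![x])) u := by
    rw [hr]
    exact hu
  have h1 := (hi.option_iff_transcendental u).mpr hu'
  let e : Fin 2 → Option (Fin 1) := ![some 0, none]
  have he : Function.Injective e := by
    intro i j hij
    fin_cases i <;> fin_cases j <;> simp_all [e]
  have h2 := h1.comp e he
  have h3 : (fun o : Option (Fin 1) => o.elim u ![x]) ∘ e = ![x, u] := by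
    funext i
    fin_cases i <;> simp [e]
  rw [h3] at h2
  obtain ⟨p, hp, hp0⟩ := h
  exact hp (h2 (by rw [map_zero]; exact hp0))

/-- nonconstant elements are transcendental -/
theorem transc_of {x : F} (hx : ∀ c : ℂ, x ≠ algebraMap ℂ F c) : Transcendental ℂ x := by
  intro h
  have hi : IsIntegral ℂ x := h.isIntegral
  have h1 := IsAlgClosed.degree_eq_one_of_irreducible ℂ (minpoly.irreducible hi)
  obtain ⟨c, hc⟩ := minpoly.mem_range_of_degree_eq_one ℂ x h1
  exact hx c hc.symm

open scoped IntermediateField.algebraAdjoinAdjoin in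
theorem halg (hF : FF F) {x : F} (hx : ∀ c : ℂ, x ≠ algebraMap ℂ F c) (u : F) :
    IsAlgebraic (IntermediateField.adjoin ℂ {x}) u := by
  have h1 := isAlg_of_dep (transc_of hx) (hF.dep x u)
  exact h1.extendScalars (FaithfulSMul.algebraMap_injective _ _)

theorem ess (hF : FF F) : Algebra.EssFiniteType ℂ F := by
  obtain ⟨s, hs⟩ := hF.fg
  rw [← IntermediateField.fg_top_iff]
  exact ⟨s, hs⟩

theorem fin (hF : FF F) {x : F} (hx : ∀ c : ℂ, x ≠ algebraMap ℂ F c) :
    Module.Finite (IntermediateField.adjoin ℂ {x}) F := by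
  have := ess hF
  have h2 : Algebra.EssFiniteType (IntermediateField.adjoin ℂ {x}) F :=
    Algebra.EssFiniteType.of_comp ℂ _ F
  have h3 : Algebra.IsAlgebraic (IntermediateField.adjoin ℂ {x}) F := ⟨halg hF hx⟩
  exact Algebra.finite_of_essFiniteType_of_isAlgebraic

open scoped IntermediateField.algebraAdjoinAdjoin in
theorem finBB (hF : FF F) {x : F} (hx : ∀ c : ℂ, x ≠ algebraMap ℂ F c) :
    Module.Finite (AA x) (BB x) := by
  have h1 := isPrincipal x
  have := fin hF hx
  exact IsIntegralClosure.finite (AA x) (IntermediateField.adjoin ℂ {x}) F (BB x)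

/-! ## The maximal ideal of the origin -/

section origin

variable (x : F)

/-- `x` as an element of `ℂ[x]` -/
noncomputable def xx : AA x := ⟨x, Algebra.self_mem_adjoin_singleton ℂ x⟩

theorem map_xx : algebraMap (AA x) (BB x) (xx x) = yy x := rfl

/-- the maximal ideal of `ℂ[x]` generated by `x` -/
noncomputable abbrev pp : Ideal (AA x) := Ideal.span {xx x}

theorem const_mod (a : AA x) : ∃ c : ℂ, a - algebraMap ℂ (AA x) c ∈ pp x := by
  obtain ⟨a, ha⟩ := a
  have ha' : a ∈ Algebra.adjoin ℂ {x} := ha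
  rw [Algebra.adjoin_singleton_eq_range_aeval] at ha'
  obtain ⟨P, hP⟩ := ha'
  refine ⟨P.coeff 0, ?_⟩
  have hQ : aeval x P.divX ∈ Algebra.adjoin ℂ {x} := by
    rw [Algebra.adjoin_singleton_eq_range_aeval]
    exact ⟨P.divX, rfl⟩
  have h1 : (⟨a, ha⟩ : AA x) - algebraMap ℂ (AA x) (P.coeff 0) =
      xx x * ⟨aeval x P.divX, hQ⟩ := by
    apply Subtype.ext
    change a - algebraMap ℂ F (P.coeff 0) = x * aeval x P.divX
    have h2 : aeval x P = a := hP
    have h3 : aeval x (X * P.divX + C (P.coeff 0)) = a := by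
      rw [Polynomial.X_mul_divX_add]
      exact h2
    rw [← h3, map_add, map_mul, aeval_X, aeval_C]
    ring
  rw [h1]
  exact Ideal.mul_mem_right _ _ (Ideal.mem_span_singleton_self _)

variable {x}

theorem pp_ne_bot (hx : ∀ c : ℂ, x ≠ algebraMap ℂ F c) : pp x ≠ ⊥ := by
  rw [Ne, Ideal.span_singleton_eq_bot]
  intro h
  refine hx 0 ?_
  rw [map_zero]
  exact congrArg Subtype.val h

theorem pp_max (hx : ∀ c : ℂ, x ≠ algebraMap ℂ F c) : (pp x).IsMaximal := by
  rw [Ideal.isMaximal_iff]
  constructor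
  · intro h
    obtain ⟨⟨a, ha⟩, h1⟩ := Ideal.mem_span_singleton.mp h
    have ha' : a ∈ Algebra.adjoin ℂ {x} := ha
    rw [Algebra.adjoin_singleton_eq_range_aeval] at ha'
    obtain ⟨P, hP⟩ := ha'
    have hP' : aeval x P = a := hP
    have h2 : (1 : F) = x * a := congrArg Subtype.val h1
    have h3 : aeval x (X * P - 1) = 0 := by
      rw [map_sub, map_mul, aeval_X, map_one, hP', ← h2, sub_self]
    have h4 := (transcendental_iff.mp (transc_of hx)) _ h3
    have h5 := congrArg (Polynomial.eval 0) h4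
    simp at h5
  · intro J a hJ ha haJ
    obtain ⟨c, hc⟩ := const_mod x a
    have hc0 : c ≠ 0 := by
      rintro rfl
      rw [map_zero, sub_zero] at hc
      exact ha hc
    have h1 : algebraMap ℂ (AA x) c ∈ J := by
      have := J.sub_mem haJ (hJ hc)
      rwa [sub_sub_cancel] at this
    have h2 := J.mul_mem_left (algebraMap ℂ (AA x) c⁻¹) h1
    rwa [← map_mul, inv_mul_cancel₀ hc0, map_one] at h2

end origin

/-! ## Places and valuations -/

theorem place_one {w : F → ℤ} (hw : IsPlace w) : w 1 = 0 := by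
  rw [← map_one (algebraMap ℂ F)]
  exact hw.const 1

open Classical in
/-- the valuation of a place -/
noncomputable def val {w : F → ℤ} (hw : IsPlace w) :
    Valuation F (WithZero (Multiplicative ℤ)) where
  toFun f := if f = 0 then 0 else WithZero.exp (-w f)
  map_zero' := by simp
  map_one' := by simp [place_one hw]
  map_mul' f g := by
    by_cases hf : f = 0
    · simp [hf]
    by_cases hg : g = 0
    · simp [hg]
    simp only [mul_eq_zero, hf, hg, or_self, if_false]
    rw [hw.mul f g hf hg, neg_add, WithZero.exp_add]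
  map_add_le_max' f g := by
    by_cases hf : f = 0
    · simp [hf]
    by_cases hg : g = 0
    · simp [hg]
    by_cases hfg : f + g = 0
    · simp [hfg]
    simp only [hf, hg, hfg, if_false]
    have h := hw.add f g hf hg hfg
    rw [le_max_iff, WithZero.exp_le_exp, WithZero.exp_le_exp]
    rcases min_le_iff.mp h with h | h
    · left; omega
    · right; omega

theorem val_apply {w : F → ℤ} (hw : IsPlace w) {f : F} (hf : f ≠ 0) :
    val hw f = WithZero.exp (-w f) := by
  classical
  exact if_neg hf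

theorem val_surj {w : F → ℤ} (hw : IsPlace w) : Function.Surjective (val hw) := by
  intro g
  by_cases hg : g = 0
  · exact ⟨0, by rw [map_zero, hg]⟩
  · obtain ⟨t, ht, h⟩ := hw.one
    have hv : val hw t = WithZero.exp (-1) := by rw [val_apply hw ht, h]
    refine ⟨t ^ (-WithZero.log g), ?_⟩
    rw [map_zpow₀, hv, ← WithZero.exp_zsmul, smul_eq_mul, ← WithZero.exp_log hg,
      WithZero.log_exp]
    congr 1
    ring

theorem inert_gen {A B : Type} [CommRing A] [CommRing B] [Algebra A B] (p : Ideal A)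
    (P : Ideal B) [p.IsMaximal] [hP : P.IsPrime] [P.LiesOver p]
    (h : ∀ b : B, ∃ a : A, b - algebraMap A B a ∈ P) : Ideal.inertiaDeg' p P = 1 := by
  rw [Ideal.inertiaDeg'_algebraMap]
  have hnt : Nontrivial (B ⧸ P) := Ideal.Quotient.nontrivial_iff.mpr hP.ne_top
  let _ : Field (A ⧸ p) := Ideal.Quotient.field p
  rw [finrank_eq_one_iff_of_nonzero' (1 : B ⧸ P) one_ne_zero]
  intro w
  obtain ⟨b, rfl⟩ := Ideal.Quotient.mk_surjective w
  obtain ⟨a, ha⟩ := h b
  refine ⟨Ideal.Quotient.mk _ a, ?_⟩
  rw [Algebra.smul_def, mul_one]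
  exact (Ideal.Quotient.eq.mpr ha).symm

section DD

variable {x : F} [IsDedekindDomain (BB x)] [IsFractionRing (BB x) F]

/-- the order function of a prime -/
noncomputable def ordq (q : HeightOneSpectrum (BB x)) (f : F) : ℤ :=
  - WithZero.log (q.valuation F f)

theorem ordq_place (q : HeightOneSpectrum (BB x)) : IsPlace (ordq q) := by
  have hne : ∀ {f : F}, f ≠ 0 → q.valuation F f ≠ 0 := fun h => (Valuation.ne_zero_iff _).mpr h
  refine ⟨?_, ?_, ?_, ?_, ?_⟩
  · rw [ordq, map_zero, WithZero.log_zero, neg_zero]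
  · intro f g hf hg
    rw [ordq, ordq, ordq, map_mul, WithZero.log_mul (hne hf) (hne hg)]
    ring
  · intro f g hf hg hfg
    have h1 := (q.valuation F).map_add f g
    rcases le_max_iff.mp h1 with h2 | h2
    · rw [← WithZero.log_le_log (hne hfg) (hne hf)] at h2
      exact (min_le_left _ _).trans (neg_le_neg h2)
    · rw [← WithZero.log_le_log (hne hfg) (hne hg)] at h2
      exact (min_le_right _ _).trans (neg_le_neg h2)
  · intro c
    have hc1 : ∀ c : ℂ, q.valuation F (algebraMap ℂ F c) ≤ 1 := fun c =>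
      q.valuation_le_one (K := F) (algebraMap ℂ (BB x) c)
    by_cases hc : c = 0
    · rw [hc, map_zero, ordq, map_zero, WithZero.log_zero, neg_zero]
    have hc' : algebraMap ℂ F c ≠ 0 := by
      rw [Ne, map_eq_zero_iff _ (algebraMap ℂ F).injective]
      exact hc
    have h1 : q.valuation F (algebraMap ℂ F c) = 1 := by
      refine le_antisymm (hc1 c) ?_
      have h2 := hc1 c⁻¹
      rw [map_inv₀, map_inv₀] at h2
      exact (inv_le_one₀ (zero_lt_iff.mpr (hne hc'))).mp h2
    rw [ordq, h1, WithZero.log_one, neg_zero]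
  · obtain ⟨t, ht⟩ := q.valuation_surjective F (WithZero.exp (-1))
    refine ⟨t, ?_, ?_⟩
    · rintro rfl
      rw [map_zero] at ht
      exact WithZero.exp_ne_zero ht.symm
    · rw [ordq, ht, WithZero.log_exp, neg_neg]

/-- the place of a prime -/
noncomputable def plq (q : HeightOneSpectrum (BB x)) : Pl F := ⟨ordq q, ordq_place q⟩

theorem plq_val (q : HeightOneSpectrum (BB x)) {f : F} (hf : f ≠ 0) :
    q.valuation F f = WithZero.exp (-(plq q).1 f) := by
  change _ = WithZero.exp (-(-WithZero.log (q.valuation F f)))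
  rw [neg_neg, WithZero.exp_log ((Valuation.ne_zero_iff _).mpr hf)]

theorem plq_inj : Function.Injective (plq : HeightOneSpectrum (BB x) → Pl F) := by
  intro q q' h
  have hval : ∀ f : F, q.valuation F f = q'.valuation F f := by
    intro f
    by_cases hf : f = 0
    · rw [hf, map_zero, map_zero]
    · rw [plq_val q hf, plq_val q' hf, h]
  apply HeightOneSpectrum.ext
  ext b
  rw [← q.valuation_lt_one_iff_mem (K := F), ← q'.valuation_lt_one_iff_mem (K := F), hval]

theorem plq_pos_iff (q : HeightOneSpectrum (BB x)) (hx0 : x ≠ 0) :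
    0 < (plq q).1 x ↔ yy x ∈ q.asIdeal := by
  have h1 : q.valuation F x = WithZero.exp (-(plq q).1 x) := plq_val q hx0
  have h2 : q.valuation F x < 1 ↔ yy x ∈ q.asIdeal :=
    q.valuation_lt_one_iff_mem (K := F) (yy x)
  rw [← h2, h1, ← WithZero.exp_zero, WithZero.exp_lt_exp]
  omega

theorem exists_plq (hx0 : x ≠ 0) (w : Pl F) (hw : 0 < w.1 x) :
    ∃ q : HeightOneSpectrum (BB x), plq q = w := by
  have hV : ∀ c : ℂ, algebraMap ℂ F c ∈ (val w.2).valuationSubring := by
    intro c
    rw [Valuation.mem_valuationSubring_iff]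
    by_cases hc : algebraMap ℂ F c = 0
    · rw [hc, map_zero]
      exact zero_le_one
    · rw [val_apply w.2 hc, w.2.const, neg_zero, WithZero.exp_zero]
  have hyV : x ∈ (val w.2).valuationSubring := by
    rw [Valuation.mem_valuationSubring_iff, val_apply w.2 hx0, ← WithZero.exp_zero,
      WithZero.exp_le_exp]
    omega
  have hyV' : x⁻¹ ∉ (val w.2).valuationSubring := by
    rw [Valuation.mem_valuationSubring_iff, map_inv₀, val_apply w.2 hx0, ← WithZero.exp_neg,
      ← WithZero.exp_zero, WithZero.exp_le_exp]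
    omega
  obtain ⟨q, hq, hqV⟩ := center x (val w.2).valuationSubring hV hx0 hyV hyV'
  refine ⟨q, ?_⟩
  have huni := val_unique (val w.2) (q.valuation F) (val_surj w.2)
    (q.valuation_surjective F) (fun u hu =>
      (Valuation.mem_valuationSubring_iff _ _).mp (hqV u hu))
  apply Subtype.ext
  funext f
  by_cases hf : f = 0
  · rw [hf, (plq q).2.zero, w.2.zero]
  · have h1 := huni f
    rw [val_apply w.2 hf, plq_val q hf, WithZero.exp_inj] at h1
    omega

/-! ## Ramification and inertia -/

omit [IsDedekindDomain (BB x)] [IsFractionRing (BB x) F] in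
theorem map_pp : (pp x).map (algebraMap (AA x) (BB x)) = Ideal.span {yy x} := by
  rw [Ideal.map_span, Set.image_singleton, map_xx]

theorem ram (q : HeightOneSpectrum (BB x)) (hx0 : x ≠ 0) :
    ((Ideal.ramificationIdx' (pp x) q.asIdeal : ℕ) : ℤ) = (plq q).1 x := by
  have hval : q.intValuation (yy x) = WithZero.exp (-(plq q).1 x) := by
    rw [← q.valuation_of_algebraMap (K := F)]
    exact plq_val q hx0
  have h0 : 0 ≤ (plq q).1 x := by
    have h1 := q.intValuation_le_one (yy x)
    rw [hval, ← WithZero.exp_zero, WithZero.exp_le_exp] at h1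
    omega
  obtain ⟨n, hn⟩ := Int.eq_ofNat_of_zero_le h0
  have hle : ∀ m : ℕ, (pp x).map (algebraMap (AA x) (BB x)) ≤ q.asIdeal ^ m ↔ m ≤ n := by
    intro m
    rw [map_pp, Ideal.span_singleton_le_iff_mem, ← q.intValuation_le_pow_iff_mem, hval,
      WithZero.exp_le_exp, hn]
    omega
  rw [hn]
  congr 1
  apply Ideal.ramificationIdx'_spec
  · exact (hle n).mpr le_rfl
  · rw [hle]
    omega

omit [IsDedekindDomain (BB x)] [IsFractionRing (BB x) F] in
theorem lies (hx : ∀ c : ℂ, x ≠ algebraMap ℂ F c) {P : Ideal (BB x)} (hP : P.IsPrime)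
    (hq : yy x ∈ P) : P.LiesOver (pp x) := by
  refine ⟨(pp_max hx).eq_of_le ?_ ?_⟩
  · intro h
    rw [Ideal.under_def, Ideal.comap_eq_top_iff] at h
    exact hP.ne_top h
  · rw [Ideal.span_singleton_le_iff_mem]
    exact hq

omit [IsFractionRing (BB x) F] in
theorem inert (hx : ∀ c : ℂ, x ≠ algebraMap ℂ F c) (q : HeightOneSpectrum (BB x))
    (hq : yy x ∈ q.asIdeal) : Ideal.inertiaDeg' (pp x) q.asIdeal = 1 := by
  have h1 := pp_max hx
  have h2 := lies hx q.isPrime hq
  have h3 := q.isPrime
  refine inert_gen (pp x) q.asIdeal fun b => ?_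
  obtain ⟨c, hc⟩ := residue x q hq b
  exact ⟨algebraMap ℂ (AA x) c, hc⟩

end DD

end ZER

open ZER in
open scoped IntermediateField.algebraAdjoinAdjoin in
theorem st_ZER : ST_ZER := by
  classical
  intro F _ _ hF x hx
  have hfin := fin hF hx
  refine ⟨Module.finrank_pos, ?_⟩
  have hx0 : x ≠ 0 := by
    rintro rfl
    exact hx 0 (map_zero _).symm
  have := ess hF
  obtain ⟨hDed, hFrac⟩ := dedekind x (halg hF hx)
  have hPIR := isPrincipal x
  have hBB := finBB hF hx
  have hmax := pp_max hx
  have hbot := pp_ne_bot hx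
  have key := Ideal.sum_ramification_inertia (BB x) (IntermediateField.adjoin ℂ {x}) F hbot
  have hmem : ∀ P : Ideal (BB x), P ∈ IsDedekindDomain.primesOverFinset (pp x) (BB x) ↔
      P.IsPrime ∧ yy x ∈ P := by
    intro P
    rw [IsDedekindDomain.mem_primesOverFinset_iff hbot]
    constructor
    · rintro ⟨h1, h2⟩
      refine ⟨h1, ?_⟩
      have h3 : xx x ∈ P.under (AA x) := by
        rw [← h2.over]
        exact Ideal.mem_span_singleton_self _
      exact h3
    · rintro ⟨h1, h2⟩
      exact ⟨h1, lies hx h1 h2⟩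
  have hyy : yy x ≠ 0 := fun h => hx0 (congrArg Subtype.val h)
  have hset : {q : HeightOneSpectrum (BB x) | yy x ∈ q.asIdeal}.Finite := by
    refine Set.Finite.of_finite_image (f := fun q => q.asIdeal) ?_ ?_
    · refine (IsDedekindDomain.primesOverFinset (pp x) (BB x)).finite_toSet.subset ?_
      rintro _ ⟨q, hq, rfl⟩
      exact (hmem _).mpr ⟨q.isPrime, hq⟩
    · intro q _ q' _ h
      exact HeightOneSpectrum.ext h
  refine ⟨hset.toFinset.image plq, ?_, ?_⟩
  · intro w
    rw [Finset.mem_image]
    constructor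
    · rintro ⟨q, hq, rfl⟩
      rw [Set.Finite.mem_toFinset] at hq
      exact (plq_pos_iff q hx0).mpr hq
    · intro hw
      obtain ⟨q, rfl⟩ := exists_plq hx0 w hw
      refine ⟨q, ?_, rfl⟩
      rw [Set.Finite.mem_toFinset]
      exact (plq_pos_iff q hx0).mp hw
  · rw [Finset.sum_image (fun q _ q' _ h => plq_inj h), ← key]
    push_cast
    refine Finset.sum_bij (fun q _ => q.asIdeal) ?_ ?_ ?_ ?_
    · intro q hq
      rw [Set.Finite.mem_toFinset] at hq
      exact (hmem _).mpr ⟨q.isPrime, hq⟩
    · intro q _ q' _ h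
      exact HeightOneSpectrum.ext h
    · intro P hP
      obtain ⟨h1, h2⟩ := (hmem P).mp hP
      refine ⟨⟨P, h1, ?_⟩, ?_, rfl⟩
      · rintro rfl
        exact hyy ((Ideal.mem_bot).mp h2)
      · rw [Set.Finite.mem_toFinset]
        exact h2
    · intro q hq
      rw [Set.Finite.mem_toFinset] at hq
      rw [inert hx q hq, ram q hx0]
      simp

end Pool.Agent.Helper43.FV
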